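import Pool.Agent.H42.MobQ.Base

set_option autoImplicit false

/-!
# The mobile general position number of hypercubes lies between two consecutive general position numbers

`gp(Q_n) ≤ mob(Q_{n+1}) ≤ gp(Q_{n+1})` for every `n`.  The lower bound uses the additional
coordinate as a buffer: copy coordinate `j` of every robot into the buffer, flip coordinate `j` of
every robot, reset the buffer.  At every stage either coordinate `j` or the buffer separates the
triples which only coordinate `j` separated.  So a general position set of `Q_n` can be moved to
each of its translates, and every vertex gets occupied.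
-/

namespace Pool.Agent.Results.MP_15cbb0_co.BufferSandwich

open Pool.Agent.H42.MobQ

/-- For every `n`: `gp(Q_n) ≤ mob(Q_{n+1}) ≤ gp(Q_{n+1})`. -/
theorem result : ∀ n : ℕ, gp (Q n) ≤ mob (Q (n + 1)) ∧ mob (Q (n + 1)) ≤ gp (Q (n + 1)) :=
  fun n => ⟨gp_le_mob n, mob_le_gp _⟩

end Pool.Agent.Results.MP_15cbb0_co.BufferSandwich
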