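import Pool.Agent.H42.MobQ.Base

set_option autoImplicit false

/-!
# Exponential growth of the mobile general position number of hypercubes

`(1/2) (4/3)^{n/2} < mob(Q_{n+1}) ≤ 2^{⌈(n+1)/2⌉} + 2^{⌊(n+1)/2⌋}` for every `n`.
-/

namespace Pool.Agent.Results.MP_15cbb0_co.ExponentialGrowth

open Pool.Agent.H42.MobQ

/-- For every `n`: `(4/3)^n < (2 mob(Q_{n+1}))^2` and
`mob(Q_{n+1}) ≤ 2^{⌈(n+1)/2⌉} + 2^{⌊(n+1)/2⌋}`. -/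
theorem result : ∀ n : ℕ, (4 / 3 : ℝ) ^ n < (2 * (mob (Q (n + 1)) : ℝ)) ^ 2 ∧
    mob (Q (n + 1)) ≤ 2 ^ ((n + 2) / 2) + 2 ^ ((n + 1) / 2) := by
  intro n
  refine ⟨?_, (mob_le_gp _).trans (gp_upper_half (n + 1))⟩
  have h1 := gp_exp n
  have h2 : gp (Q n) ^ 2 ≤ mob (Q (n + 1)) ^ 2 := Nat.pow_le_pow_left (gp_le_mob n) 2
  have h3 : 4 ^ n < 4 * 3 ^ n * mob (Q (n + 1)) ^ 2 := h1.trans_le (Nat.mul_le_mul_left _ h2)
  have h4 : (4 : ℝ) ^ n < 4 * 3 ^ n * (mob (Q (n + 1)) : ℝ) ^ 2 := by exact_mod_cast h3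
  rw [div_pow, div_lt_iff₀ (by positivity)]
  linarith [h4]

end Pool.Agent.Results.MP_15cbb0_co.ExponentialGrowth
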